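import Pool.Agent.W533.K.Defs

set_option autoImplicit false

/-!
UK-LOWER: lower bound at one level.
-/

namespace Pool.Agent.W193.UK

open Finset
open Pool.Agent.W533.K

universe u

theorem lower : Lower.{u} := by
  classical
  intro X _ _ ι _ c ρ ν n g G hc hL x y hxy hN
  set Δ := dist x y with hΔ
  have hΔ0 : 0 ≤ Δ := dist_nonneg
  -- nearest points
  have hnear : ∀ (i : ι) (z : X), ∃ a, c a = i ∧ dist z a = pd c i z := by
    intro i z
    obtain ⟨a0, ha0⟩ := hc i
    have hcomp : IsCompact {y | c y = i} := (Set.toFinite _).isCompact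
    obtain ⟨a, ha, h⟩ := hcomp.exists_infDist_eq_dist ⟨a0, ha0⟩ z
    exact ⟨a, ha, h.symm⟩
  have hpd0 : ∀ i z, 0 ≤ pd c i z := fun i z => Metric.infDist_nonneg
  have hGn : ∀ (i : ι) (z a : X), c a = i → |‖G i z‖ - ρ z| ≤ 49 * dist z a := by
    intro i z a ha
    have h1 := hL.close i z a ha
    have h2 := hL.g_norm i a ha
    have h3 := hL.rho_lip z a
    have h4 := abs_norm_sub_norm_le (G i z) (g i a)
    rw [h2] at h4
    rw [abs_le] at h3 h4 ⊢
    constructor <;> linarith [h3.1, h3.2, h4.1, h4.2]
  have hGr : ∀ (i : ι) (z : X), 0 < ν i z → |‖G i z‖ - ρ z| ≤ ρ z / 100 := by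
    intro i z hz
    obtain ⟨a, ha, hda⟩ := hnear i z
    have h1 := hGn i z a ha
    have h2 := hL.nu_supp i z hz
    have h3 := hL.rho_pos z
    rw [hda] at h1
    linarith
  set R := ρ x with hR
  set R' := ρ y with hR'
  have hR0 : 0 < R := hL.rho_pos x
  have hR'0 : 0 < R' := hL.rho_pos y
  have hs2 : 0 ≤ ∑ i, ‖ν i x • G i x - ν i y • G i y‖ ^ 2 := sum_nonneg fun i _ => by positivity
  have hs3 : 0 ≤ ∑ i, (ν i x * pd c i x - ν i y * pd c i y) ^ 2 :=
    sum_nonneg fun i _ => by positivity
  unfold levelSq
  rw [← hR, ← hR']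
  rcases hΔ0.eq_or_lt with h0 | hΔpos
  · rw [← h0]
    have : 0 ≤ (R - R') ^ 2 := by positivity
    norm_num
    linarith
  rcases lt_or_ge R (Δ / 16) with hU | hS
  · -- case U
    rcases lt_or_ge (R / 2) |R - R'| with hd | hd
    · have h1 : (R / 2) ^ 2 ≤ (R - R') ^ 2 := by
        rw [← sq_abs (R - R')]
        exact pow_le_pow_left₀ (by linarith) hd.le 2
      have h2 : (Δ / 160000) ^ 2 ≤ (R / 2) ^ 2 :=
        pow_le_pow_left₀ (by linarith) (by linarith) 2
      linarith
    · have hR'u : R' ≤ 3 / 2 * R := by
        have := (abs_le.1 hd).1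
        linarith
      have hterm : ∀ i, (98 / 100) * R ^ 2 * ν i x ^ 2 - R ^ 2 / 8 * (ν i x ^ 2 + ν i y ^ 2) ≤
          ‖ν i x • G i x - ν i y • G i y‖ ^ 2 := by
        intro i
        have hp := hL.nu_nonneg i x
        have hq := hL.nu_nonneg i y
        rw [norm_sub_sq_real, norm_smul, norm_smul, Real.norm_of_nonneg hp,
          Real.norm_of_nonneg hq, real_inner_smul_left, real_inner_smul_right]
        have hq2 : 0 ≤ (ν i y * ‖G i y‖) ^ 2 := by positivity
        rcases hp.eq_or_lt with hp0 | hp0
        · rw [← hp0]
          have : 0 ≤ R ^ 2 / 8 * (ν i y ^ 2) := by positivity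
          nlinarith
        · have h1 := abs_le.1 (hGr i x hp0)
          have hA : (98 / 100) * R ^ 2 * ν i x ^ 2 ≤ (ν i x * ‖G i x‖) ^ 2 := by
            rw [mul_pow]
            have h3 : (99 / 100 * R) ^ 2 ≤ ‖G i x‖ ^ 2 :=
              pow_le_pow_left₀ (by positivity) (by linarith [h1.1]) 2
            have h4 : (98 / 100) * R ^ 2 ≤ ‖G i x‖ ^ 2 := by nlinarith [sq_nonneg R]
            nlinarith [sq_nonneg (ν i x)]
          rcases hq.eq_or_lt with hq0 | hq0
          · rw [← hq0] at *
            have : 0 ≤ R ^ 2 / 8 * (ν i x ^ 2) := by positivity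
            nlinarith
          · -- inner product bound
            have h2 := abs_le.1 (hGr i y hq0)
            have hin : inner ℝ (G i x) (G i y) ≤ R ^ 2 / 8 := by
              obtain ⟨a, ha, hda⟩ := hnear i x
              obtain ⟨a', ha', hda'⟩ := hnear i y
              have ha1 : dist x a < R / 5000 := by rw [hda]; exact hL.nu_supp i x hp0
              have ha1' : dist y a' < R' / 5000 := by rw [hda']; exact hL.nu_supp i y hq0
              have hra := abs_le.1 (hL.rho_lip x a)
              have hra' := abs_le.1 (hL.rho_lip y a')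
              have hpa := hL.rho_pos a
              have hpa' := hL.rho_pos a'
              have hdd : 15 * R ≤ dist a a' := by
                have h5 := dist_triangle4 x a a' y
                rw [dist_comm a' y] at h5
                linarith
              have hg := hL.g_inner i a a' ha ha'
              have hga : 2 * ρ a ^ 2 * ρ a' ^ 2 / (ρ a ^ 2 + ρ a' ^ 2 + dist a a' ^ 2) ≤
                  3 / 100 * R ^ 2 := by
                have h6 : (15 * R) ^ 2 ≤ ρ a ^ 2 + ρ a' ^ 2 + dist a a' ^ 2 := by
                  have h7 : (15 * R) ^ 2 ≤ dist a a' ^ 2 :=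
                    pow_le_pow_left₀ (by positivity) hdd 2
                  nlinarith [sq_nonneg (ρ a), sq_nonneg (ρ a')]
                have h8 : 0 < ρ a ^ 2 + ρ a' ^ 2 + dist a a' ^ 2 := by positivity
                rw [div_le_iff₀ h8]
                have h9 : ρ a ^ 2 ≤ (1.01 * R) ^ 2 :=
                  pow_le_pow_left₀ hpa.le (by linarith [hra.1]) 2
                have h10 : ρ a' ^ 2 ≤ (1.52 * R) ^ 2 :=
                  pow_le_pow_left₀ hpa'.le (by linarith [hra'.1]) 2
                have h11 : ρ a ^ 2 * ρ a' ^ 2 ≤ (1.01 * R) ^ 2 * (1.52 * R) ^ 2 :=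
                  mul_le_mul h9 h10 (by positivity) (by positivity)
                have h12 : 3 / 100 * R ^ 2 * (15 * R) ^ 2 ≤
                    3 / 100 * R ^ 2 * (ρ a ^ 2 + ρ a' ^ 2 + dist a a' ^ 2) :=
                  mul_le_mul_of_nonneg_left h6 (by positivity)
                nlinarith [sq_nonneg (R ^ 2)]
              have hsplit : inner ℝ (G i x) (G i y) = inner ℝ (g i a) (g i a') +
                  inner ℝ (G i x - g i a) (G i y) + inner ℝ (g i a) (G i y - g i a') := by
                rw [inner_sub_left, inner_sub_right]; ring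
              have hc1 := hL.close i x a ha
              have hc2 := hL.close i y a' ha'
              have hn := hL.g_norm i a ha
              have hb1 : inner ℝ (G i x - g i a) (G i y) ≤ (1 / 50 * R) * (1.52 * R) := by
                refine (real_inner_le_norm _ _).trans ?_
                apply mul_le_mul (by linarith) (by linarith [h2.2]) (norm_nonneg _)
                  (by positivity)
              have hb2 : inner ℝ (g i a) (G i y - g i a') ≤ (1.01 * R) * (1 / 50 * R) := by
                refine (real_inner_le_norm _ _).trans ?_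
                rw [hn]
                apply mul_le_mul (by linarith [hra.1]) (by linarith) (norm_nonneg _)
                  (by positivity)
              rw [hsplit]
              nlinarith [sq_nonneg R]
            have h13 : ν i x * (ν i y * inner ℝ (G i x) (G i y)) ≤
                ν i x * (ν i y * (R ^ 2 / 8)) :=
              mul_le_mul_of_nonneg_left (mul_le_mul_of_nonneg_left hin hq) hp
            have h14 : 2 * (ν i x * ν i y) ≤ ν i x ^ 2 + ν i y ^ 2 := by
              nlinarith [sq_nonneg (ν i x - ν i y)]
            have h15 : 2 * (ν i x * ν i y) * (R ^ 2 / 8) ≤ (ν i x ^ 2 + ν i y ^ 2) * (R ^ 2 / 8) :=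
              mul_le_mul_of_nonneg_right h14 (by positivity)
            nlinarith
      have hsum : 98 / 100 * R ^ 2 - R ^ 2 / 4 ≤
          ∑ i, ‖ν i x • G i x - ν i y • G i y‖ ^ 2 := by
        have h1 : ∑ i, ((98 / 100) * R ^ 2 * ν i x ^ 2 -
            R ^ 2 / 8 * (ν i x ^ 2 + ν i y ^ 2)) = 98 / 100 * R ^ 2 - R ^ 2 / 4 := by
          rw [sum_sub_distrib, ← mul_sum, ← mul_sum, sum_add_distrib, hL.nu_sum x, hL.nu_sum y]
          ring
        rw [← h1]
        exact sum_le_sum fun i _ => hterm i
      have h2 : (Δ / 160000) ^ 2 ≤ (R / 2) ^ 2 :=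
        pow_le_pow_left₀ (by linarith) (by linarith) 2
      nlinarith [sq_nonneg (R - R'), sq_nonneg R]
  · -- case S
    rcases le_or_gt (Δ / 200) |R - R'| with hd | hd
    · have h1 : (Δ / 200) ^ 2 ≤ (R - R') ^ 2 := by
        rw [← sq_abs (R - R')]
        exact pow_le_pow_left₀ (by linarith) hd 2
      have h2 : (Δ / 160000) ^ 2 ≤ (Δ / 200) ^ 2 :=
        pow_le_pow_left₀ (by linarith) (by linarith) 2
      linarith
    · rw [abs_lt] at hd
      set N : Finset ι := univ.filter fun i => pd c i x ≤ Δ / 80000 with hNdef
      have hN1 := hN N (fun i hi => by simp [hNdef, hi])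
      have hterm : ∀ i ∈ N, (Δ / 80000) ^ 2 * ν i x ^ 2 ≤
          ‖ν i x • G i x - ν i y • G i y‖ ^ 2 + (ν i x * pd c i x - ν i y * pd c i y) ^ 2 := by
        intro i hi
        have hix : pd c i x ≤ Δ / 80000 := by simpa [hNdef] using hi
        have hp := hL.nu_nonneg i x
        have hq := hL.nu_nonneg i y
        rcases hp.eq_or_lt with hp0 | hp0
        · rw [← hp0]
          have h1 : 0 ≤ ‖(0 : ℝ) • G i x - ν i y • G i y‖ ^ 2 := by positivity
          have h2 : 0 ≤ ((0 : ℝ) * pd c i x - ν i y * pd c i y) ^ 2 := by positivity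
          exact le_trans (by norm_num) (add_nonneg h1 h2)
        rw [← mul_pow]
        have hsq2 : 0 ≤ (ν i x * pd c i x - ν i y * pd c i y) ^ 2 := by positivity
        have hsq1 : 0 ≤ ‖ν i x • G i x - ν i y • G i y‖ ^ 2 := by positivity
        rcases le_or_gt (pd c i y) (Δ / 20000) with hJ | hJ
        · -- J1
          suffices h : Δ / 80000 * ν i x ≤ ‖ν i x • G i x - ν i y • G i y‖ by
            have := pow_le_pow_left₀ (by positivity) h 2
            linarith
          by_contra hcon
          push Not at hcon
          obtain ⟨a, ha, hda⟩ := hnear i x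
          obtain ⟨a', ha', hda'⟩ := hnear i y
          rw [← hda] at hix
          rw [← hda'] at hJ
          have hra := abs_le.1 (hL.rho_lip x a)
          have hra' := abs_le.1 (hL.rho_lip y a')
          have hn := hL.g_norm i a ha
          have hn' := hL.g_norm i a' ha'
          have hc1 := hL.close i x a ha
          have hc2 := hL.close i y a' ha'
          have hg := hL.g_inner i a a' ha ha'
          have hdd : 99 / 100 * Δ ≤ dist a a' := by
            have h5 := dist_triangle4 x a a' y
            rw [dist_comm a' y] at h5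
            linarith
          -- lower bound for `‖g a - g a'‖`
          have hgg : (Δ / 20) ^ 2 ≤ ‖g i a - g i a'‖ ^ 2 := by
            rw [norm_sub_sq_real, hn, hn']
            set A := ρ a ^ 2 with hA
            set B := ρ a' ^ 2 with hB
            set d := dist a a' ^ 2 with hd2
            have hA1 : (Δ / 17) ^ 2 ≤ A := pow_le_pow_left₀ (by positivity) (by linarith) 2
            have hB1 : (Δ / 18) ^ 2 ≤ B := pow_le_pow_left₀ (by positivity) (by linarith) 2
            have hd1 : (99 / 100 * Δ) ^ 2 ≤ d := pow_le_pow_left₀ (by positivity) hdd 2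
            have hpos : 0 < A + B + d := by
              have e1 : 0 < (99 / 100 * Δ) ^ 2 := by positivity
              have e2 : 0 ≤ A := sq_nonneg _
              have e3 : 0 ≤ B := sq_nonneg _
              linarith
            have h6 : A + B - 2 * (2 * A * B / (A + B + d)) =
                ((A - B) ^ 2 + (A + B) * d) / (A + B + d) := by
              field_simp
              ring
            have h7 : (Δ / 20) ^ 2 ≤ ((A - B) ^ 2 + (A + B) * d) / (A + B + d) := by
              rw [le_div_iff₀ hpos]
              have h8 : 2 * (Δ / 20) ^ 2 ≤ A + B := by nlinarith [sq_nonneg Δ]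
              have h9 : 2 * (Δ / 20) ^ 2 ≤ d := by nlinarith [sq_nonneg Δ]
              have hd0 : 0 ≤ d := by positivity
              have hAB : 0 ≤ A + B := by positivity
              have h10 : 2 * (Δ / 20) ^ 2 * d ≤ (A + B) * d := mul_le_mul_of_nonneg_right h8 hd0
              have h11 : 2 * (Δ / 20) ^ 2 * (A + B) ≤ d * (A + B) :=
                mul_le_mul_of_nonneg_right h9 hAB
              nlinarith [sq_nonneg (A - B)]
            linarith
          have hgg' : Δ / 20 ≤ ‖g i a - g i a'‖ :=
            le_of_sq_le_sq hgg (norm_nonneg _)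
          have hGG : 47 / 1000 * Δ ≤ ‖G i x - G i y‖ := by
            have h5 : g i a - g i a' = -(G i x - g i a) + (G i x - G i y) + (G i y - g i a') := by
              abel
            have h6 : ‖g i a - g i a'‖ ≤ ‖G i x - g i a‖ + ‖G i x - G i y‖ + ‖G i y - g i a'‖ := by
              rw [h5]
              refine (norm_add_le _ _).trans ?_
              have h7 := norm_add_le (-(G i x - g i a)) (G i x - G i y)
              rw [norm_neg] at h7
              linarith
            linarith
          have hx1 := abs_le.1 (hGn i x a ha)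
          have hy1 := abs_le.1 (hGn i y a' ha')
          have hst : |‖G i x‖ - ‖G i y‖| ≤ Δ / 100 := by
            rw [abs_le]
            constructor <;> linarith [hx1.1, hx1.2, hy1.1, hy1.2]
          -- triangle inequalities
          have h12 : |ν i x * ‖G i x‖ - ν i y * ‖G i y‖| ≤
              ‖ν i x • G i x - ν i y • G i y‖ := by
            have := abs_norm_sub_norm_le (ν i x • G i x) (ν i y • G i y)
            rwa [norm_smul, norm_smul, Real.norm_of_nonneg hp, Real.norm_of_nonneg hq] at this
          have h13 : ν i x * ‖G i x - G i y‖ ≤ ‖ν i x • G i x - ν i y • G i y‖ +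
              |ν i y * ‖G i y‖ - ν i x * ‖G i y‖| := by
            have h14 : ν i x * ‖G i x - G i y‖ = ‖ν i x • (G i x - G i y)‖ := by
              rw [norm_smul, Real.norm_of_nonneg hp]
            have h15 : ν i x • (G i x - G i y) =
                (ν i x • G i x - ν i y • G i y) + (ν i y - ν i x) • G i y := by
              rw [smul_sub, sub_smul]; abel
            rw [h14, h15]
            refine (norm_add_le _ _).trans ?_
            rw [norm_smul, Real.norm_eq_abs, ← sub_mul, abs_mul, abs_of_nonneg (norm_nonneg (G i y))]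
          have h16 : |ν i y * ‖G i y‖ - ν i x * ‖G i y‖| ≤
              |ν i x * ‖G i x‖ - ν i y * ‖G i y‖| + ν i x * |‖G i x‖ - ‖G i y‖| := by
            have h17 : ν i y * ‖G i y‖ - ν i x * ‖G i y‖ =
                -(ν i x * ‖G i x‖ - ν i y * ‖G i y‖) + ν i x * (‖G i x‖ - ‖G i y‖) := by ring
            rw [h17]
            refine (abs_add_le _ _).trans ?_
            rw [abs_neg, abs_mul, abs_of_nonneg hp]
          have h18 : ν i x * |‖G i x‖ - ‖G i y‖| ≤ ν i x * (Δ / 100) :=
            mul_le_mul_of_nonneg_left hst hp
          have h19 : ν i x * (47 / 1000 * Δ) ≤ ν i x * ‖G i x - G i y‖ :=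
            mul_le_mul_of_nonneg_left hGG hp
          have h20 : 0 < ν i x * Δ := by positivity
          nlinarith
        · -- J2
          rcases le_or_gt (ν i x / 2) (ν i y) with hpq | hpq
          · have h1 : Δ / 80000 * ν i x ≤ ν i y * pd c i y - ν i x * pd c i x := by
              have h2 : ν i x / 2 * (Δ / 20000) ≤ ν i y * pd c i y :=
                mul_le_mul hpq hJ.le (by positivity) hq
              have h3 : ν i x * pd c i x ≤ ν i x * (Δ / 80000) :=
                mul_le_mul_of_nonneg_left hix hp
              nlinarith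
            have h2 := pow_le_pow_left₀ (by positivity) h1 2
            have h3 : (ν i y * pd c i y - ν i x * pd c i x) ^ 2 =
                (ν i x * pd c i x - ν i y * pd c i y) ^ 2 := by ring
            linarith
          · have h1 : Δ / 80000 * ν i x ≤ ‖ν i x • G i x - ν i y • G i y‖ := by
              have h2 := norm_sub_norm_le (ν i x • G i x) (ν i y • G i y)
              rw [norm_smul, norm_smul, Real.norm_of_nonneg hp, Real.norm_of_nonneg hq] at h2
              have h3 := (abs_le.1 (hGr i x hp0)).1
              have h4 : ν i x * (99 / 100 * R) ≤ ν i x * ‖G i x‖ :=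
                mul_le_mul_of_nonneg_left (by linarith) hp
              have h5 : ν i y * ‖G i y‖ ≤ ν i x / 2 * (1.1 * R) := by
                rcases hq.eq_or_lt with hq0 | hq0
                · rw [← hq0, zero_mul]; positivity
                · have h6 := (abs_le.1 (hGr i y hq0)).2
                  exact mul_le_mul hpq.le (by linarith) (norm_nonneg _) (by positivity)
              have h7 : ν i x * (Δ / 16) ≤ ν i x * R := mul_le_mul_of_nonneg_left hS hp
              have h8 : 0 ≤ ν i x * Δ := by positivity
              nlinarith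
            have h2 := pow_le_pow_left₀ (by positivity) h1 2
            linarith
      have hsum : (Δ / 80000) ^ 2 * ∑ i ∈ N, ν i x ^ 2 ≤
          ∑ i, ‖ν i x • G i x - ν i y • G i y‖ ^ 2 +
            ∑ i, (ν i x * pd c i x - ν i y * pd c i y) ^ 2 := by
        rw [← sum_add_distrib, mul_sum]
        refine (sum_le_sum hterm).trans ?_
        exact sum_le_sum_of_subset_of_nonneg (subset_univ _) fun i _ _ => by positivity
      have h1 : (Δ / 160000) ^ 2 ≤ (Δ / 80000) ^ 2 * ∑ i ∈ N, ν i x ^ 2 := by
        have h2 : (1 : ℝ) / 2 ≤ ∑ i ∈ N, ν i x ^ 2 := by linarith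
        have h3 : (Δ / 80000) ^ 2 * (1 / 2) ≤ (Δ / 80000) ^ 2 * ∑ i ∈ N, ν i x ^ 2 :=
          mul_le_mul_of_nonneg_left h2 (by positivity)
        nlinarith [sq_nonneg Δ]
      nlinarith [sq_nonneg (R - R')]

end Pool.Agent.W193.UK

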